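import Mathlib

open Finset Matrix

namespace KS6_22_MS

section flow
variable {V : Type} [Fintype V] [DecidableEq V]

open scoped Matrix.Norms.Operator in
lemma exp_entry (M : Matrix V V ℂ) (x y : V) (t : ℝ) :
    HasDerivAt (fun t : ℝ => NormedSpace.exp ((-t) • M) x y)
      (-(NormedSpace.exp ((-t) • M) * M) x y) t := by
  have h1 : HasDerivAt (fun u : ℝ => NormedSpace.exp (u • M)) (NormedSpace.exp ((-t) • M) * M) (-t) :=
    hasDerivAt_exp_smul_const M (-t)
  have h2 : HasDerivAt (fun t : ℝ => NormedSpace.exp ((-t) • M))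
      ((-1 : ℝ) • (NormedSpace.exp ((-t) • M) * M)) t :=
    h1.scomp t (hasDerivAt_neg t)
  let L : Matrix V V ℂ →ₗ[ℝ] ℂ :=
    { toFun := fun A => A x y, map_add' := fun _ _ => rfl, map_smul' := fun _ _ => rfl }
  have h3 := (LinearMap.toContinuousLinearMap L).hasFDerivAt.comp_hasDerivAt t h2
  refine h3.congr_deriv ?_
  change L ((-1 : ℝ) • (NormedSpace.exp ((-t) • M) * M)) = _
  change (((-1 : ℝ) • (NormedSpace.exp ((-t) • M) * M)) : Matrix V V ℂ) x y = _
  rw [Matrix.smul_apply]
  simp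

lemma flow (M : Matrix V V ℂ) (w : ℝ → V → ℂ) (hw : ∀ t, HasDerivAt w (M *ᵥ w t) t) (s t : ℝ) :
    NormedSpace.exp ((t - s) • M) *ᵥ w s = w t := by
  have key : ∀ r, HasDerivAt (fun t : ℝ => NormedSpace.exp ((-t) • M) *ᵥ w t) 0 r := by
    intro r
    rw [hasDerivAt_pi]
    intro x
    have h1 : HasDerivAt (fun t : ℝ => ∑ y, NormedSpace.exp ((-t) • M) x y * w t y)
        (∑ y, (-(NormedSpace.exp ((-r) • M) * M) x y * w r y +
          NormedSpace.exp ((-r) • M) x y * (M *ᵥ w r) y)) r := by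
      apply HasDerivAt.fun_sum
      intro y _
      exact (exp_entry M x y r).mul (hasDerivAt_pi.1 (hw r) y)
    refine h1.congr_deriv ?_
    rw [Finset.sum_add_distrib]
    have h2 : ∑ y, NormedSpace.exp ((-r) • M) x y * (M *ᵥ w r) y =
        ((NormedSpace.exp ((-r) • M)) *ᵥ (M *ᵥ w r)) x := rfl
    have h3 : ∑ y, -(NormedSpace.exp ((-r) • M) * M) x y * w r y =
        -(((NormedSpace.exp ((-r) • M)) * M) *ᵥ (w r)) x := by
      simp only [mulVec, dotProduct, neg_mul, Finset.sum_neg_distrib]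
    rw [h2, h3, mulVec_mulVec]
    simp
  have hdiff : Differentiable ℝ (fun t : ℝ => NormedSpace.exp ((-t) • M) *ᵥ w t) :=
    fun r => (key r).differentiableAt
  have hconst := is_const_of_deriv_eq_zero hdiff (fun r => (key r).deriv)
  have h4 : NormedSpace.exp ((-s) • M) *ᵥ w s = NormedSpace.exp ((-t) • M) *ᵥ w t := hconst s t
  have h5 : NormedSpace.exp (t • M) * NormedSpace.exp ((-t) • M) = 1 := by
    rw [← Matrix.exp_add_of_commute]
    · rw [← add_smul, add_neg_cancel, zero_smul, NormedSpace.exp_zero]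
    · exact (Commute.refl M).smul_left _ |>.smul_right _
  have h6 : NormedSpace.exp (t • M) * NormedSpace.exp ((-s) • M) = NormedSpace.exp ((t - s) • M) := by
    rw [← Matrix.exp_add_of_commute]
    · rw [← add_smul, sub_eq_add_neg]
    · exact (Commute.refl M).smul_left _ |>.smul_right _
  rw [← h6, ← mulVec_mulVec, h4, mulVec_mulVec, h5, one_mulVec]

end flow

end KS6_22_MS
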