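import Pool.Agent.KS6_22.MS.Core2
import Pool.Agent.KS6_22.MS.Flow

open Finset Matrix

namespace KS6_22_MS

/-- scaling of a rational matrix to an integer matrix with a small size -/
lemma scaling {N : Type} [Fintype N] (B : Matrix N N ℚ) (b : ℕ) (hb : 1 ≤ b) :
    ∃ (L : ℕ) (Z : Matrix N N ℤ), 1 ≤ L ∧ (∀ x y, (Z x y : ℚ) = L * B x y) ∧
      ∀ x y, (Z x y).natAbs ≤ (L * b) ^ 2 := by
  classical
  set d : ℕ := ∏ p : N × N, (B p.1 p.2).den with hd
  have hd1 : 1 ≤ d := Nat.one_le_iff_ne_zero.2 (Finset.prod_ne_zero_iff.2 fun p _ => Rat.den_nz _)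
  obtain ⟨β, hβ⟩ : ∃ β : ℕ, ∀ p : N × N, |B p.1 p.2| ≤ β := by
    obtain ⟨β, hβ⟩ := exists_nat_ge (∑ p : N × N, |B p.1 p.2|)
    exact ⟨β, fun p => le_trans (Finset.single_le_sum (f := fun p : N × N => |B p.1 p.2|)
      (fun _ _ => abs_nonneg _) (Finset.mem_univ p)) hβ⟩
  set L : ℕ := d * (β + 1) with hL
  have hL1 : 1 ≤ L := Nat.mul_pos hd1 (by omega)
  have hdiv : ∀ x y, (B x y).den ∣ L := fun x y =>
    Dvd.dvd.mul_right (Finset.dvd_prod_of_mem (fun p : N × N => (B p.1 p.2).den)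
      (Finset.mem_univ (x, y))) _
  choose q hq using hdiv
  have hZ : ∀ x y, (((q x y : ℤ) * (B x y).num : ℤ) : ℚ) = L * B x y := by
    intro x y
    have h1 : B x y * (B x y).den = (B x y).num := Rat.mul_den_eq_num _
    have h2 : (L : ℚ) = (B x y).den * q x y := by exact_mod_cast hq x y
    rw [h2]
    push_cast
    linear_combination (-(q x y : ℚ)) * h1
  refine ⟨L, fun x y => (q x y : ℤ) * (B x y).num, hL1, hZ, ?_⟩
  intro x y
  have h2 : ((((q x y : ℤ) * (B x y).num : ℤ).natAbs : ℕ) : ℚ) ≤ ((L * b) ^ 2 : ℕ) := by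
    rw [Nat.cast_natAbs, Int.cast_abs, hZ, abs_mul, Nat.abs_cast]
    have h3 : |B x y| ≤ L := by
      refine (hβ (x, y)).trans ?_
      have : β ≤ L := by
        rw [hL]
        nlinarith
      exact_mod_cast this
    have hb' : (1 : ℚ) ≤ b := by exact_mod_cast hb
    have hLq : (0 : ℚ) ≤ L := by positivity
    push_cast
    have h4 : (L : ℚ) * |B x y| ≤ L * L := by gcongr
    have h5 : (L : ℚ) * L ≤ (L * b) ^ 2 := by
      have : (L : ℚ) ≤ L * b := le_mul_of_one_le_right hLq hb'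
      nlinarith
    linarith
  exact_mod_cast h2

section blow
variable {K : ℕ} {κ : Type} [Fintype κ] [DecidableEq κ]

/-- vertices -/
abbrev Ver (K : ℕ) (κ : Type) (n : ℕ) : Type := Fin K ⊕ ((Fin K ⊕ κ) × Fin n)

/-- signed adjacency of the blown-up graph -/
def adj (Z : Matrix (Fin K ⊕ (Fin K ⊕ κ)) (Fin K ⊕ (Fin K ⊕ κ)) ℤ) (n : ℕ) [NeZero n] :
    Ver K κ n → Ver K κ n → ℤ
  | Sum.inl _, Sum.inl _ => 0
  | Sum.inl j, Sum.inr (c, _) => if c = Sum.inl j then -1 else 0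
  | Sum.inr (c, _), Sum.inl j => if c = Sum.inl j then 1 else 0
  | Sum.inr (c, a), Sum.inr (c', a') =>
      if ((a + a' : Fin n) : ℕ) < (Z (Sum.inr c) (Sum.inr c')).natAbs then
        (Z (Sum.inr c) (Sum.inr c')).sign else 0

variable (Z : Matrix (Fin K ⊕ (Fin K ⊕ κ)) (Fin K ⊕ (Fin K ⊕ κ)) ℤ) (n : ℕ) [NeZero n]

lemma adj_skew (hZ : ∀ x y, Z y x = -Z x y) (v v' : Ver K κ n) : adj Z n v' v = -adj Z n v v' := by
  rcases v with j | ⟨c, a⟩ <;> rcases v' with j' | ⟨c', a'⟩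
  · simp [adj]
  · simp only [adj]
    split_ifs <;> simp
  · simp only [adj]
    split_ifs <;> simp
  · simp only [adj]
    rw [hZ (Sum.inr c) (Sum.inr c'), Int.natAbs_neg, add_comm a' a]
    split_ifs
    · rw [Int.sign_neg]
    · simp

lemma adj_values (v v' : Ver K κ n) : adj Z n v v' = 0 ∨ adj Z n v v' = 1 ∨ adj Z n v v' = -1 := by
  rcases v with j | ⟨c, a⟩ <;> rcases v' with j' | ⟨c', a'⟩
  · simp [adj]
  · simp only [adj]
    split_ifs <;> simp
  · simp only [adj]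
    split_ifs <;> simp
  · simp only [adj]
    split_ifs
    · rcases lt_trichotomy (Z (Sum.inr c) (Sum.inr c')) 0 with h | h | h
      · rw [Int.sign_eq_neg_one_of_neg h]; simp
      · rw [h]; simp
      · rw [Int.sign_eq_one_of_pos h]; simp
    · simp

lemma count_shift (a : Fin n) (z : ℕ) (hz : z ≤ n) :
    (univ.filter (fun a' : Fin n => ((a + a' : Fin n) : ℕ) < z)).card = z := by
  have h1 : (univ.filter (fun a' : Fin n => ((a + a' : Fin n) : ℕ) < z)).card =
      (univ.filter (fun a' : Fin n => (a' : ℕ) < z)).card := by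
    apply card_bij (fun a' _ => a + a')
    · intro x hx
      simpa using hx
    · intro x _ y _ h
      exact add_left_cancel h
    · intro y hy
      refine ⟨-a + y, ?_, by simp⟩
      simpa using hy
  rw [h1]
  rw [Fin.card_filter_val_lt]
  exact min_eq_right hz

lemma row_sum (c c' : Fin K ⊕ κ) (a : Fin n) (hz : (Z (Sum.inr c) (Sum.inr c')).natAbs ≤ n) :
    ∑ a' : Fin n, adj Z n (Sum.inr (c, a)) (Sum.inr (c', a')) = Z (Sum.inr c) (Sum.inr c') := by
  simp only [adj]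
  rw [← Finset.sum_filter, Finset.sum_const, count_shift n a _ hz, nsmul_eq_mul, mul_comm]
  exact Int.sign_mul_natAbs _

/-- lift of a vector to the blown-up graph -/
noncomputable def lft (m : ℕ) (v : Fin K ⊕ (Fin K ⊕ κ) → ℝ) : Ver K κ n → ℂ
  | Sum.inl j => (v (Sum.inl j) : ℂ)
  | Sum.inr (c, _) => (v (Sum.inr c) : ℂ) / m

lemma intertwine (m : ℕ) (hm : 1 ≤ m) (hn : n = m ^ 2) (hZ : ∀ x y, Z y x = -Z x y)
    (hz : ∀ x y, (Z x y).natAbs ≤ n)
    (hcol : ∀ (j : Fin K) x, Z x (Sum.inl j) = if x = Sum.inr (Sum.inl j) then (m : ℤ) else 0)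
    (v : Fin K ⊕ (Fin K ⊕ κ) → ℝ) (x : Ver K κ n) :
    ∑ y, (adj Z n x y : ℂ) * lft n m v y = lft n m (fun p => ∑ q, (Z p q : ℝ) * v q) x := by
  have hm0 : (m : ℂ) ≠ 0 := by
    have : m ≠ 0 := by omega
    exact_mod_cast this
  rw [Fintype.sum_sum_type, Fintype.sum_prod_type]
  rcases x with j | ⟨c, a⟩
  · simp only [adj, lft, Int.cast_zero, zero_mul, Finset.sum_const_zero, zero_add]
    simp only [Finset.sum_const, Finset.card_univ, Fintype.card_fin, nsmul_eq_mul]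
    have hrow : ∀ q, Z (Sum.inl j) q = if q = Sum.inr (Sum.inl j) then -(m : ℤ) else 0 := by
      intro q
      rw [hZ q (Sum.inl j), hcol]
      split_ifs <;> simp
    simp only [hrow]
    have e1 : ∑ q : Fin K ⊕ (Fin K ⊕ κ), (((if q = Sum.inr (Sum.inl j) then -(m : ℤ) else 0 : ℤ)) : ℝ)
        * v q = -(m : ℝ) * v (Sum.inr (Sum.inl j)) := by
      rw [Finset.sum_eq_single (Sum.inr (Sum.inl j))]
      · simp
      · intro q _ hq
        simp [hq]
      · simp
    rw [e1]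
    have e2 : ∑ c : Fin K ⊕ κ, (n : ℂ) * ((((if c = Sum.inl j then (-1 : ℤ) else 0) : ℤ) : ℂ) *
        ((v (Sum.inr c) : ℂ) / m)) = (n : ℂ) * ((-1) * ((v (Sum.inr (Sum.inl j)) : ℂ) / m)) := by
      rw [Finset.sum_eq_single (Sum.inl j)]
      · simp
      · intro q _ hq
        simp [hq]
      · simp
    rw [e2, hn]
    push_cast
    field_simp
  · simp only [lft]
    have e1 : ∑ j : Fin K, ((adj Z n (Sum.inr (c, a)) (Sum.inl j) : ℤ) : ℂ) * (v (Sum.inl j) : ℂ) =
        ∑ j : Fin K, ((Z (Sum.inr c) (Sum.inl j) : ℤ) : ℂ) / m * (v (Sum.inl j) : ℂ) := by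
      refine Finset.sum_congr rfl fun j _ => ?_
      simp only [adj, hcol, Sum.inr.injEq]
      split_ifs
      · push_cast
        rw [div_self hm0]
      · simp
    have e2 : ∑ c' : Fin K ⊕ κ, ∑ a' : Fin n, ((adj Z n (Sum.inr (c, a)) (Sum.inr (c', a')) : ℤ) : ℂ) *
        ((v (Sum.inr c') : ℂ) / m) =
        ∑ c' : Fin K ⊕ κ, ((Z (Sum.inr c) (Sum.inr c') : ℤ) : ℂ) * ((v (Sum.inr c') : ℂ) / m) := by
      refine Finset.sum_congr rfl fun c' _ => ?_
      rw [← Finset.sum_mul]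
      congr 1
      exact_mod_cast row_sum Z n c c' a (hz _ _)
    rw [e1, e2]
    rw [Fintype.sum_sum_type (f := fun q => (Z (Sum.inr c) q : ℝ) * v q)]
    push_cast
    rw [add_div, Finset.sum_div, Finset.sum_div]
    congr 1
    · refine Finset.sum_congr rfl fun j _ => ?_
      ring
    · refine Finset.sum_congr rfl fun j _ => ?_
      ring

end blow

end KS6_22_MS
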