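import Mathlib

open Finset Matrix

namespace KS6_22_MS

section house
variable {ι : Type} [Fintype ι] [DecidableEq ι]

lemma house_mulVec (v u : ι → ℚ) (c : ℚ) :
    ((1 : Matrix ι ι ℚ) - c • vecMulVec v v) *ᵥ u = u - (c * (v ⬝ᵥ u)) • v := by
  rw [sub_mulVec, one_mulVec, smul_mulVec, vecMulVec_mulVec]
  ext i
  simp only [Pi.sub_apply, Pi.smul_apply, smul_eq_mul, MulOpposite.smul_eq_mul_unop,
    MulOpposite.unop_op]
  ring

lemma matrix_eq_one_of {A : Matrix ι ι ℚ} (h : ∀ u, A *ᵥ u = u) : A = 1 := by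
  ext i j
  have := congrFun (h (Pi.single j 1)) i
  rw [mulVec_single_one] at this
  simpa [Matrix.one_apply, Pi.single_apply, eq_comm] using this

lemma house (x y : ι → ℚ) (hx : x ⬝ᵥ x = 1) (hy : y ⬝ᵥ y = 1) :
    ∃ R : Matrix ι ι ℚ, R * Rᵀ = 1 ∧ R *ᵥ x = y ∧ ∀ u, u ⬝ᵥ x = u ⬝ᵥ y → R *ᵥ u = u := by
  by_cases hxy : x = y
  · exact ⟨1, by simp, by simp [hxy], fun u _ => by simp⟩
  · set v := x - y with hv
    have hv0 : v ⬝ᵥ v ≠ 0 := by
      intro h
      rw [dotProduct_self_eq_zero] at h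
      exact hxy (sub_eq_zero.1 h)
    have hvv : v ⬝ᵥ v = 2 * (v ⬝ᵥ x) := by
      have : y ⬝ᵥ x = x ⬝ᵥ y := dotProduct_comm _ _
      rw [hv]
      simp only [sub_dotProduct, dotProduct_sub, hx, hy, this]
      ring
    set c : ℚ := 2 / (v ⬝ᵥ v) with hc
    have hcv : c * (v ⬝ᵥ v) = 2 := by rw [hc]; field_simp
    have hsymm : ((1 : Matrix ι ι ℚ) - c • vecMulVec v v)ᵀ = 1 - c • vecMulVec v v := by
      rw [transpose_sub, transpose_one, transpose_smul, transpose_vecMulVec]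
    refine ⟨1 - c • vecMulVec v v, ?_, ?_, ?_⟩
    · apply matrix_eq_one_of
      intro u
      rw [hsymm, ← mulVec_mulVec, house_mulVec, house_mulVec]
      rw [dotProduct_sub, dotProduct_smul, smul_eq_mul]
      ext i
      simp only [Pi.sub_apply, Pi.smul_apply, smul_eq_mul]
      have : c * (v ⬝ᵥ u - c * v ⬝ᵥ u * v ⬝ᵥ v) = -(c * (v ⬝ᵥ u)) := by
        linear_combination (-(c * (v ⬝ᵥ u))) * hcv
      rw [this]
      ring
    · rw [house_mulVec]
      have : c * (v ⬝ᵥ x) = 1 := by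
        rw [hvv] at hcv
        linarith
      rw [this, one_smul, hv]
      simp
    · intro u hu
      rw [house_mulVec]
      have : v ⬝ᵥ u = 0 := by
        rw [hv, sub_dotProduct, dotProduct_comm x u, dotProduct_comm y u, hu, sub_self]
      rw [this]
      simp

lemma dot_preserved {Q : Matrix ι ι ℚ} (hQ : Q * Qᵀ = 1) (x y : ι → ℚ) :
    (Q *ᵥ x) ⬝ᵥ (Q *ᵥ y) = x ⬝ᵥ y := by
  have h : Qᵀ * Q = 1 := mul_eq_one_comm.1 hQ
  rw [dotProduct_mulVec, vecMul_mulVec, h, vecMul_one]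

lemma ortho {α : Type} [DecidableEq α] (f : α → ι → ℚ) (σ : α → ι)
    (hσ : Function.Injective σ) (hf : ∀ i, f i ⬝ᵥ f i = 1) (hf' : ∀ i j, i ≠ j → f i ⬝ᵥ f j = 0)
    (s : Finset α) :
    ∃ Q : Matrix ι ι ℚ, Q * Qᵀ = 1 ∧ ∀ i ∈ s, Q *ᵥ f i = Pi.single (σ i) 1 := by
  induction s using Finset.induction_on with
  | empty => exact ⟨1, by simp, by simp⟩
  | insert a s ha ih =>
    obtain ⟨Q, hQ, hQf⟩ := ih
    obtain ⟨R, hR, hRx, hRu⟩ := house (Q *ᵥ f a) (Pi.single (σ a) 1)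
      (by rw [dot_preserved hQ, hf]) (by simp)
    refine ⟨R * Q, ?_, ?_⟩
    · rw [transpose_mul, Matrix.mul_assoc, ← Matrix.mul_assoc Q, hQ, Matrix.one_mul, hR]
    · intro i hi
      rw [← mulVec_mulVec]
      rcases Finset.mem_insert.1 hi with h | h
      · rw [h, hRx]
      · rw [hQf i h]
        apply hRu
        rw [← hQf i h, dot_preserved hQ]
        have hia : i ≠ a := fun e => ha (e ▸ h)
        rw [hf' i a hia, hQf i h]
        simp [hσ.ne hia]

end house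

end KS6_22_MS
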