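import Pool.Agent.KS6_22.MS.Dist
import Pool.Agent.KS6_22.MS.Orth

open Finset Matrix

namespace KS6_22_MS

/-- a nonnegative rational is a sum of four squares -/
lemma four_squares (q : ℚ) (hq : 0 ≤ q) : ∃ c : Bool → Bool → ℚ,
    ∑ s, ((c s false) ^ 2 + (c s true) ^ 2) = q := by
  obtain ⟨a, b, c, d, h⟩ := Nat.sum_four_squares (q.num.toNat * q.den)
  have hden : (q.den : ℚ) ≠ 0 := by exact_mod_cast q.den_nz
  have hnum : ((q.num.toNat : ℕ) : ℚ) = q.num := by
    have : ((q.num.toNat : ℕ) : ℤ) = q.num := Int.toNat_of_nonneg (Rat.num_nonneg.2 hq)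
    exact_mod_cast this
  refine ⟨fun s r => bif s then (bif r then a / q.den else b / q.den) else
    (bif r then c / q.den else d / q.den), ?_⟩
  rw [Fintype.sum_bool]
  simp only [cond_true, cond_false]
  have h' : (a : ℚ) ^ 2 + b ^ 2 + c ^ 2 + d ^ 2 = q.num.toNat * q.den := by exact_mod_cast h
  have hq' : q = q.num / q.den := (Rat.num_div_den q).symm
  rw [hnum] at h'
  have : (b / q.den : ℚ) ^ 2 + (a / q.den) ^ 2 + ((d / q.den) ^ 2 + (c / q.den) ^ 2) =
      ((a : ℚ) ^ 2 + b ^ 2 + c ^ 2 + d ^ 2) / q.den ^ 2 := by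
    field_simp
    ring
  rw [this, h']
  conv_rhs => rw [hq']
  field_simp

section vec
variable {Ω : Type} [Fintype Ω] [DecidableEq Ω] (θ : Ω → ℤ) (c : Ω → Bool → Bool → ℚ)

/-- block rotation generator -/
def DM : Matrix (Ω × Bool × Bool) (Ω × Bool × Bool) ℚ := fun x y =>
  if x.1 = y.1 ∧ x.2.1 = y.2.1 then
    (bif x.2.2 then (bif y.2.2 then 0 else (θ x.1 : ℚ)) else (bif y.2.2 then -(θ x.1 : ℚ) else 0))
  else 0

lemma DM_mulVec {R : Type} [CommRing R] (φ : ℚ →+* R) (v : Ω × Bool × Bool → R)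
    (x : Ω × Bool × Bool) :
    ((DM θ).map φ *ᵥ v) x = bif x.2.2 then φ (θ x.1) * v (x.1, x.2.1, false) else
      -φ (θ x.1) * v (x.1, x.2.1, true) := by
  obtain ⟨ω, s, r⟩ := x
  simp only [mulVec, dotProduct, Matrix.map_apply, DM]
  rw [Fintype.sum_prod_type]
  rw [Finset.sum_eq_single ω]
  · rw [Fintype.sum_prod_type, Finset.sum_eq_single s]
    · rw [Fintype.sum_bool]
      cases r <;> simp
    · intro b _ hb
      rw [Fintype.sum_bool]
      simp [Ne.symm hb]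
    · simp
  · intro b _ hb
    apply Finset.sum_eq_zero
    intro y _
    simp [Ne.symm hb]
  · simp

lemma DM_mulVec' (v : Ω × Bool × Bool → ℚ) (x : Ω × Bool × Bool) :
    (DM θ *ᵥ v) x = bif x.2.2 then (θ x.1 : ℚ) * v (x.1, x.2.1, false) else
      -(θ x.1 : ℚ) * v (x.1, x.2.1, true) := by
  have := DM_mulVec θ (RingHom.id ℚ) v x
  simpa using this

lemma DM_transpose : (DM θ)ᵀ = -DM θ := by
  ext x y
  rw [transpose_apply, Matrix.neg_apply]
  obtain ⟨ω, s, r⟩ := x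
  obtain ⟨ω', s', r'⟩ := y
  by_cases h : ω = ω' ∧ s = s'
  · obtain ⟨rfl, rfl⟩ := h
    cases r <;> cases r' <;> simp [DM]
  · have h' : ¬ (ω' = ω ∧ s' = s) := fun e => h ⟨e.1.symm, e.2.symm⟩
    simp only [DM]
    rw [if_neg h, if_neg h', neg_zero]

/-- the walk in the model -/
noncomputable def rv (t : ℝ) : Ω × Bool × Bool → ℝ := fun x =>
  bif x.2.2 then c x.1 x.2.1 false * Real.sin (θ x.1 * t) + c x.1 x.2.1 true * Real.cos (θ x.1 * t)
  else c x.1 x.2.1 false * Real.cos (θ x.1 * t) - c x.1 x.2.1 true * Real.sin (θ x.1 * t)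

lemma rv_deriv (t : ℝ) : HasDerivAt (rv θ c)
    ((DM θ).map (Rat.castHom ℝ) *ᵥ (rv θ c t)) t := by
  rw [hasDerivAt_pi]
  rintro ⟨ω, s, r⟩
  rw [DM_mulVec]
  have hl : HasDerivAt (fun t : ℝ => (θ ω : ℝ) * t) (θ ω : ℝ) t := by
    simpa using (hasDerivAt_id t).const_mul (θ ω : ℝ)
  have hc := hl.cos
  have hs := hl.sin
  cases r
  · simp only [rv, cond_false, cond_true]
    have := (hc.const_mul (c ω s false : ℝ)).sub (hs.const_mul (c ω s true : ℝ))
    refine this.congr_deriv ?_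
    simp only [eq_ratCast, Rat.cast_intCast]
    ring
  · simp only [rv, cond_false, cond_true]
    have := (hs.const_mul (c ω s false : ℝ)).add (hc.const_mul (c ω s true : ℝ))
    refine this.congr_deriv ?_
    simp only [eq_ratCast, Rat.cast_intCast]
    ring

lemma rv_rat (m : ℤ) : ∃ v : Ω × Bool × Bool → ℚ, ∀ x, rv θ c (m * tau) x = v x := by
  have h : ∀ ω : Ω, ∃ a b : ℚ, Real.cos (θ ω * (m * tau)) = a ∧ Real.sin (θ ω * (m * tau)) = b := by
    intro ω
    obtain ⟨a, b, h1, h2⟩ := cos_rat (θ ω * m)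
    have e : ((θ ω * m : ℤ) : ℝ) * tau = θ ω * (m * tau) := by push_cast; ring
    rw [e] at h1 h2
    exact ⟨a, b, h1, h2⟩
  choose a b ha hb using h
  refine ⟨fun x => bif x.2.2 then c x.1 x.2.1 false * b x.1 + c x.1 x.2.1 true * a x.1
    else c x.1 x.2.1 false * a x.1 - c x.1 x.2.1 true * b x.1, ?_⟩
  rintro ⟨ω, s, r⟩
  cases r <;> simp only [rv, cond_false, cond_true, ha, hb] <;> push_cast <;> ring

variable (w : Ω → ℚ) (hc : ∀ ω, ∑ s, ((c ω s false) ^ 2 + (c ω s true) ^ 2) = w ω)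

include hc in
lemma dot0 (x y : ℝ) : rv θ c x ⬝ᵥ rv θ c y = (Mo w θ 0 (y - x)).re := by
  unfold Mo
  rw [Complex.re_sum]
  simp only [dotProduct]
  rw [Fintype.sum_prod_type]
  refine Finset.sum_congr rfl fun ω _ => ?_
  have e1 : Complex.I * ((y - x : ℝ) : ℂ) * (θ ω : ℂ) = (((θ ω) * (y - x) : ℝ) : ℂ) * Complex.I := by
    push_cast; ring
  rw [e1, Complex.exp_mul_I, ← Complex.ofReal_cos, ← Complex.ofReal_sin, pow_zero, mul_one]
  have e2 : ((w ω : ℚ) : ℂ) = ((w ω : ℝ) : ℂ) := by push_cast; rfl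
  rw [e2, Complex.re_ofReal_mul]
  simp only [Complex.add_re, Complex.ofReal_re, Complex.mul_re, Complex.I_re, Complex.I_im,
    Complex.ofReal_im, mul_zero, mul_one, sub_zero, add_zero, zero_mul]
  rw [mul_sub, Real.cos_sub, ← hc ω]
  rw [Fintype.sum_prod_type]
  simp only [Fintype.sum_bool, rv, cond_true, cond_false]
  push_cast
  ring

include hc in
lemma dot1 (x y : ℝ) : rv θ c x ⬝ᵥ ((DM θ).map (Rat.castHom ℝ) *ᵥ (rv θ c y)) =
    -(Mo w θ 1 (y - x)).im := by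
  unfold Mo
  rw [Complex.im_sum, ← Finset.sum_neg_distrib]
  simp only [dotProduct]
  rw [Fintype.sum_prod_type]
  refine Finset.sum_congr rfl fun ω _ => ?_
  have e1 : Complex.I * ((y - x : ℝ) : ℂ) * (θ ω : ℂ) = (((θ ω) * (y - x) : ℝ) : ℂ) * Complex.I := by
    push_cast; ring
  rw [e1, Complex.exp_mul_I, ← Complex.ofReal_cos, ← Complex.ofReal_sin, pow_one]
  have e2 : ((w ω : ℚ) : ℂ) * (θ ω : ℂ) = ((w ω * θ ω : ℝ) : ℂ) := by push_cast; rfl
  rw [e2, Complex.im_ofReal_mul]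
  simp only [Complex.add_im, Complex.ofReal_re, Complex.mul_im, Complex.I_re, Complex.I_im,
    Complex.ofReal_im, mul_zero, mul_one, add_zero, zero_add]
  rw [mul_sub, Real.sin_sub, ← hc ω]
  rw [Fintype.sum_prod_type]
  simp only [Fintype.sum_bool, DM_mulVec, rv, cond_true, cond_false, eq_ratCast,
    Rat.cast_intCast]
  push_cast
  ring

include hc in
lemma dot2 (x y : ℝ) : ((DM θ).map (Rat.castHom ℝ) *ᵥ (rv θ c x)) ⬝ᵥ
    ((DM θ).map (Rat.castHom ℝ) *ᵥ (rv θ c y)) = (Mo w θ 2 (y - x)).re := by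
  unfold Mo
  rw [Complex.re_sum]
  simp only [dotProduct]
  rw [Fintype.sum_prod_type]
  refine Finset.sum_congr rfl fun ω _ => ?_
  have e1 : Complex.I * ((y - x : ℝ) : ℂ) * (θ ω : ℂ) = (((θ ω) * (y - x) : ℝ) : ℂ) * Complex.I := by
    push_cast; ring
  rw [e1, Complex.exp_mul_I, ← Complex.ofReal_cos, ← Complex.ofReal_sin]
  have e2 : ((w ω : ℚ) : ℂ) * (θ ω : ℂ) ^ 2 = ((w ω * θ ω ^ 2 : ℝ) : ℂ) := by push_cast; rfl
  rw [e2, Complex.re_ofReal_mul]
  simp only [Complex.add_re, Complex.ofReal_re, Complex.mul_re, Complex.I_re, Complex.I_im,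
    Complex.ofReal_im, mul_zero, mul_one, sub_zero, add_zero, zero_mul]
  rw [mul_sub, Real.cos_sub, ← hc ω]
  rw [Fintype.sum_prod_type]
  simp only [Fintype.sum_bool, DM_mulVec, rv, cond_true, cond_false, eq_ratCast,
    Rat.cast_intCast]
  push_cast
  ring

end vec

end KS6_22_MS
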