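import Pool.Agent.KS6_22.MS.Core

open Finset Matrix

namespace KS6_22_MS

/-- pad by zeros -/
def pad {K : ℕ} {ι R : Type} [Zero R] (v : ι → R) : Fin K ⊕ (Fin K ⊕ ι) → R :=
  Sum.elim 0 (Sum.elim 0 v)

lemma pad_dot {K : ℕ} {ι : Type} [Fintype ι] (v u : ι → ℚ) :
    (pad v : Fin K ⊕ (Fin K ⊕ ι) → ℚ) ⬝ᵥ pad u = v ⬝ᵥ u := by
  simp [pad, dotProduct]

lemma cast_dot {ι : Type} [Fintype ι] (v u : ι → ℚ) :
    ((v ⬝ᵥ u : ℚ) : ℝ) = (fun x => ((v x : ℚ) : ℝ)) ⬝ᵥ (fun x => ((u x : ℚ) : ℝ)) := by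
  simp [dotProduct]

lemma core (K : ℕ) : ∃ (κ : Type) (_ : Fintype κ) (_ : DecidableEq κ)
    (B : Matrix (Fin K ⊕ (Fin K ⊕ κ)) (Fin K ⊕ (Fin K ⊕ κ)) ℚ) (b : ℕ), 1 ≤ b ∧ Bᵀ = -B ∧
    (∀ j : Fin K, B *ᵥ Pi.single (Sum.inl j) 1 = (b : ℚ) • Pi.single (Sum.inr (Sum.inl j)) 1) ∧
    ∃ u : ℝ → (Fin K ⊕ (Fin K ⊕ κ)) → ℝ,
      (∀ t, HasDerivAt u (B.map (Rat.castHom ℝ) *ᵥ u t) t) ∧
      ∀ (j : Fin K) (n : ℤ), u (j * tau + n * (2 * Real.pi)) = Pi.single (Sum.inl j) 1 := by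
  classical
  obtain ⟨Ω, _, w, θ, b, hb, hw0, hw1, hw2, hM⟩ := exists_weight K
  choose c hc using fun ω => four_squares (w ω) (hw0 ω)
  choose e he using fun j : Fin K => rv_rat θ c (j : ℤ)
  have hbq : (b : ℚ) ≠ 0 := by
    have : 0 < b := hb
    positivity
  -- moments
  have hmom : ∀ i j : Fin K, i ≤ j → ∀ m < 3, Mo w θ m (((j : ℤ) : ℝ) * tau - ((i : ℤ) : ℝ) * tau) =
      if i = j then ((∑ ω, w ω * (θ ω : ℚ) ^ m : ℚ) : ℂ) else 0 := by
    intro i j hij m hm
    by_cases h : i = j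
    · subst h
      rw [if_pos rfl, sub_self, Mo_zero]
    · rw [if_neg h]
      have hlt : (i : ℕ) < j := lt_of_le_of_ne hij (fun e => h (Fin.ext e))
      have e1 : (((j : ℤ) : ℝ) * tau - ((i : ℤ) : ℝ) * tau) = (((j : ℕ) - (i : ℕ) : ℕ) : ℝ) * tau := by
        rw [Nat.cast_sub hlt.le]
        push_cast
        ring
      rw [e1]
      exact hM _ (by omega) (by have := j.2; omega) m hm
  have he' : ∀ j : Fin K, (fun x => ((e j x : ℚ) : ℝ)) = rv θ c (((j : ℤ) : ℝ) * tau) := by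
    intro j; funext x; exact (he j x).symm
  have hDe : ∀ j : Fin K, (fun x => (((DM θ *ᵥ e j) x : ℚ) : ℝ)) =
      (DM θ).map (Rat.castHom ℝ) *ᵥ rv θ c (((j : ℤ) : ℝ) * tau) := by
    intro j
    rw [← he' j]
    funext x
    exact RingHom.map_mulVec (Rat.castHom ℝ) (DM θ) (e j) x
  have E0' : ∀ i j : Fin K, i ≤ j → e i ⬝ᵥ e j = if i = j then 1 else 0 := by
    intro i j hij
    have h1 : ((e i ⬝ᵥ e j : ℚ) : ℝ) = ((if i = j then 1 else 0 : ℚ) : ℝ) := by
      rw [cast_dot, he', he', dot0 θ c w hc, hmom i j hij 0 (by norm_num)]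
      by_cases h : i = j
      · simp only [h, if_true, pow_zero, mul_one, hw1]
        norm_num
      · simp only [h, if_false]
        norm_num
    exact_mod_cast h1
  have E0 : ∀ i j : Fin K, e i ⬝ᵥ e j = if i = j then 1 else 0 := by
    intro i j
    rcases le_total i j with h | h
    · exact E0' i j h
    · rw [dotProduct_comm, E0' j i h]
      simp only [eq_comm]
  have E2' : ∀ i j : Fin K, i ≤ j → (DM θ *ᵥ e i) ⬝ᵥ (DM θ *ᵥ e j) =
      if i = j then (b : ℚ) ^ 2 else 0 := by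
    intro i j hij
    have h1 : (((DM θ *ᵥ e i) ⬝ᵥ (DM θ *ᵥ e j) : ℚ) : ℝ) =
        ((if i = j then (b : ℚ) ^ 2 else 0 : ℚ) : ℝ) := by
      rw [cast_dot, hDe, hDe, dot2 θ c w hc, hmom i j hij 2 (by norm_num)]
      by_cases h : i = j
      · simp only [h, if_true, hw2]
        rw [Complex.ratCast_re]
      · simp only [h, if_false]
        norm_num
    exact_mod_cast h1
  have E2 : ∀ i j : Fin K, (DM θ *ᵥ e i) ⬝ᵥ (DM θ *ᵥ e j) = if i = j then (b : ℚ) ^ 2 else 0 := by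
    intro i j
    rcases le_total i j with h | h
    · exact E2' i j h
    · rw [dotProduct_comm, E2' j i h]
      simp only [eq_comm]
  have hanti : ∀ v u : Ω × Bool × Bool → ℚ, v ⬝ᵥ (DM θ *ᵥ u) = -(u ⬝ᵥ (DM θ *ᵥ v)) := by
    intro v u
    rw [dotProduct_mulVec, ← mulVec_transpose, DM_transpose, neg_mulVec, neg_dotProduct,
      dotProduct_comm]
  have E1' : ∀ i j : Fin K, i ≤ j → e i ⬝ᵥ (DM θ *ᵥ e j) = 0 := by
    intro i j hij
    by_cases h : i = j
    · subst h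
      have := hanti (e i) (e i)
      linarith
    · have h1 : ((e i ⬝ᵥ (DM θ *ᵥ e j) : ℚ) : ℝ) = ((0 : ℚ) : ℝ) := by
        rw [cast_dot, he', hDe, dot1 θ c w hc, hmom i j hij 1 (by norm_num), if_neg h]
        simp
      exact_mod_cast h1
  have E1 : ∀ i j : Fin K, e i ⬝ᵥ (DM θ *ᵥ e j) = 0 := by
    intro i j
    rcases le_total i j with h | h
    · exact E1' i j h
    · rw [hanti, E1' j i h, neg_zero]
  -- the orthonormal family
  let f : Fin K ⊕ Fin K → (Fin K ⊕ (Fin K ⊕ (Ω × Bool × Bool))) → ℚ :=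
    Sum.elim (fun j => pad (e j)) (fun j => pad ((b : ℚ)⁻¹ • (DM θ *ᵥ e j)))
  let σ : Fin K ⊕ Fin K → (Fin K ⊕ (Fin K ⊕ (Ω × Bool × Bool))) :=
    Sum.elim Sum.inl (fun j => Sum.inr (Sum.inl j))
  have hσ : Function.Injective σ := by
    rintro (i | i) (j | j) h <;> simp [σ] at h ⊢ <;> exact h
  have hf : ∀ i, f i ⬝ᵥ f i = 1 := by
    rintro (i | i)
    · simp only [f, Sum.elim_inl, pad_dot, E0, if_true]
    · simp only [f, Sum.elim_inr, pad_dot, smul_dotProduct, dotProduct_smul, E2, if_true,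
        smul_eq_mul]
      field_simp
  have hf' : ∀ i j, i ≠ j → f i ⬝ᵥ f j = 0 := by
    rintro (i | i) (j | j) h
    · have : i ≠ j := fun e => h (by rw [e])
      simp only [f, Sum.elim_inl, pad_dot, E0, if_neg this]
    · simp only [f, Sum.elim_inl, Sum.elim_inr, pad_dot, dotProduct_smul, E1, smul_zero]
    · simp only [f, Sum.elim_inl, Sum.elim_inr, pad_dot, smul_dotProduct]
      rw [dotProduct_comm, E1, smul_zero]
    · have : i ≠ j := fun e => h (by rw [e])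
      simp only [f, Sum.elim_inr, pad_dot, smul_dotProduct, dotProduct_smul, E2, if_neg this,
        smul_zero]
  obtain ⟨Q, hQ, hQf⟩ := ortho f σ hσ hf hf' Finset.univ
  have hQ' : Qᵀ * Q = 1 := mul_eq_one_comm.1 hQ
  set D' : Matrix (Fin K ⊕ (Fin K ⊕ (Ω × Bool × Bool))) (Fin K ⊕ (Fin K ⊕ (Ω × Bool × Bool))) ℚ :=
    fromBlocks 0 0 0 (fromBlocks 0 0 0 (DM θ)) with hD'
  have hD'T : D'ᵀ = -D' := by
    rw [hD', fromBlocks_transpose, fromBlocks_transpose, DM_transpose, fromBlocks_neg,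
      fromBlocks_neg]
    simp
  have hpadD : ∀ v : Ω × Bool × Bool → ℚ, D' *ᵥ (pad v) = pad (DM θ *ᵥ v) := by
    intro v
    rw [hD', pad, fromBlocks_mulVec]
    simp only [pad, Sum.elim_comp_inl, Sum.elim_comp_inr, fromBlocks_mulVec, zero_mulVec,
      zero_add]
  refine ⟨Ω × Bool × Bool, inferInstance, inferInstance, Q * D' * Qᵀ, b, hb, ?_, ?_, ?_⟩
  · rw [transpose_mul, transpose_mul, transpose_transpose, hD'T, Matrix.neg_mul, Matrix.mul_neg,
      Matrix.mul_assoc]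
  · intro j
    have h1 : Qᵀ *ᵥ Pi.single (Sum.inl j) 1 = pad (e j) := by
      have := hQf (Sum.inl j) (Finset.mem_univ _)
      simp only [σ, f, Sum.elim_inl] at this
      rw [← this, mulVec_mulVec, hQ', one_mulVec]
    have h2 := hQf (Sum.inr j) (Finset.mem_univ _)
    simp only [σ, f, Sum.elim_inr] at h2
    rw [← mulVec_mulVec, ← mulVec_mulVec, h1, hpadD]
    have h3 : (pad (DM θ *ᵥ e j) : Fin K ⊕ (Fin K ⊕ (Ω × Bool × Bool)) → ℚ) =
        (b : ℚ) • pad ((b : ℚ)⁻¹ • (DM θ *ᵥ e j)) := by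
      funext x
      rcases x with x | x | x
      · simp [pad]
      · simp [pad]
      · simp [pad, hbq]
    rw [h3, mulVec_smul, h2]
  · refine ⟨fun t => Q.map (Rat.castHom ℝ) *ᵥ (pad (rv θ c t)), ?_, ?_⟩
    · intro t
      have hp : HasDerivAt (fun t => (pad (rv θ c t) : Fin K ⊕ (Fin K ⊕ (Ω × Bool × Bool)) → ℝ))
          (pad ((DM θ).map (Rat.castHom ℝ) *ᵥ (rv θ c t))) t := by
        rw [hasDerivAt_pi]
        rintro (x | x | x)
        · simpa [pad] using hasDerivAt_const t (0 : ℝ)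
        · simpa [pad] using hasDerivAt_const t (0 : ℝ)
        · have := (hasDerivAt_pi.1 (rv_deriv θ c t)) x
          simpa [pad] using this
      have hlin : HasDerivAt (fun t => Q.map (Rat.castHom ℝ) *ᵥ
          (pad (rv θ c t) : Fin K ⊕ (Fin K ⊕ (Ω × Bool × Bool)) → ℝ))
          (Q.map (Rat.castHom ℝ) *ᵥ (pad ((DM θ).map (Rat.castHom ℝ) *ᵥ (rv θ c t)))) t := by
        rw [hasDerivAt_pi] at hp ⊢
        intro x
        simp only [mulVec, dotProduct]
        apply HasDerivAt.fun_sum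
        intro y _
        exact (hp y).const_mul _
      refine hlin.congr_deriv ?_
      have hpadD' : ∀ v : Ω × Bool × Bool → ℝ, D'.map (Rat.castHom ℝ) *ᵥ (pad v) =
          (pad ((DM θ).map (Rat.castHom ℝ) *ᵥ v) : Fin K ⊕ (Fin K ⊕ (Ω × Bool × Bool)) → ℝ) := by
        intro v
        rw [hD', pad, fromBlocks_map, fromBlocks_map, fromBlocks_mulVec]
        simp only [pad, Sum.elim_comp_inl, Sum.elim_comp_inr, fromBlocks_mulVec]
        have z1 : ∀ (m n : Type) [Fintype n] (x : n → ℝ),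
            ((0 : Matrix m n ℚ).map (Rat.castHom ℝ)) *ᵥ x = 0 := by
          intro m n _ x
          have : ((0 : Matrix m n ℚ).map (Rat.castHom ℝ)) = 0 := by
            ext; simp
          rw [this, zero_mulVec]
        simp only [z1, zero_add]
      rw [Matrix.map_mul, Matrix.map_mul, ← mulVec_mulVec, ← mulVec_mulVec, ← hpadD']
      congr 2
      have : (Qᵀ).map (Rat.castHom ℝ) * Q.map (Rat.castHom ℝ) = 1 := by
        rw [← Matrix.map_mul, hQ']
        exact Matrix.map_one _ (map_zero _) (map_one _)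
      rw [mulVec_mulVec, this, one_mulVec]
    · intro j n
      have h1 : rv θ c (j * tau + n * (2 * Real.pi)) = fun x => ((e j x : ℚ) : ℝ) := by
        rw [he']
        funext x
        have a1 : (θ x.1 : ℝ) * (j * tau + n * (2 * Real.pi)) =
            θ x.1 * (((j : ℤ) : ℝ) * tau) + ((θ x.1 * n : ℤ) : ℝ) * (2 * Real.pi) := by
          push_cast; ring
        simp only [rv, a1, Real.cos_add_int_mul_two_pi, Real.sin_add_int_mul_two_pi]
      have h2 := hQf (Sum.inl j) (Finset.mem_univ _)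
      simp only [σ, f, Sum.elim_inl] at h2
      simp only [h1]
      have h3 : (pad (fun x => ((e j x : ℚ) : ℝ)) : Fin K ⊕ (Fin K ⊕ (Ω × Bool × Bool)) → ℝ) =
          fun x => ((pad (e j) x : ℚ) : ℝ) := by
        funext x
        rcases x with x | x | x <;> simp [pad]
      rw [h3]
      funext x
      have h4 := RingHom.map_mulVec (Rat.castHom ℝ) Q (pad (e j)) x
      have h5 := congrFun h2 x
      rw [h5] at h4
      have h6 : (Q.map (Rat.castHom ℝ) *ᵥ fun x => ((pad (e j) x : ℚ) : ℝ)) x =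
          (Rat.castHom ℝ) ((Pi.single (Sum.inl j) (1 : ℚ) :
            Fin K ⊕ (Fin K ⊕ (Ω × Bool × Bool)) → ℚ) x) := h4.symm
      rw [h6]
      by_cases hx : x = Sum.inl j
      · subst hx; simp
      · simp [Pi.single_eq_of_ne hx]

end KS6_22_MS
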