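import Mathlib

open Finset

namespace KS6_22_MS

/-- the moments of a weight with a character -/
noncomputable def Mo {Ω : Type} [Fintype Ω] (w : Ω → ℚ) (θ : Ω → ℤ) (j : ℕ) (x : ℝ) : ℂ :=
  ∑ ω, (w ω : ℂ) * (θ ω : ℂ) ^ j * Complex.exp (Complex.I * x * θ ω)

section conv
variable {Ω Ω' : Type} [Fintype Ω] [Fintype Ω'] (w : Ω → ℚ) (θ : Ω → ℤ) (w' : Ω' → ℚ) (θ' : Ω' → ℤ)
  (x : ℝ)

/-- product weight -/
def cw : Ω × Ω' → ℚ := fun p => w p.1 * w' p.2

/-- sum of the frequencies -/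
def ct : Ω × Ω' → ℤ := fun p => θ p.1 + θ' p.2

lemma exp_split (a b : ℤ) : Complex.exp (Complex.I * x * ((a + b : ℤ) : ℂ)) =
    Complex.exp (Complex.I * x * a) * Complex.exp (Complex.I * x * b) := by
  rw [← Complex.exp_add]
  congr 1
  push_cast
  ring

lemma Mo_conv0 : Mo (cw w w') (ct θ θ') 0 x = Mo w θ 0 x * Mo w' θ' 0 x := by
  unfold Mo cw ct
  rw [Fintype.sum_prod_type, Finset.sum_mul_sum]
  refine Finset.sum_congr rfl fun a _ => Finset.sum_congr rfl fun b _ => ?_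
  rw [exp_split]
  push_cast
  ring

lemma Mo_conv1 : Mo (cw w w') (ct θ θ') 1 x =
    Mo w θ 1 x * Mo w' θ' 0 x + Mo w θ 0 x * Mo w' θ' 1 x := by
  unfold Mo cw ct
  rw [Fintype.sum_prod_type, Finset.sum_mul_sum, Finset.sum_mul_sum, ← Finset.sum_add_distrib]
  refine Finset.sum_congr rfl fun a _ => ?_
  rw [← Finset.sum_add_distrib]
  refine Finset.sum_congr rfl fun b _ => ?_
  rw [exp_split]
  push_cast
  ring

lemma Mo_conv2 : Mo (cw w w') (ct θ θ') 2 x =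
    Mo w θ 2 x * Mo w' θ' 0 x + 2 * (Mo w θ 1 x * Mo w' θ' 1 x) + Mo w θ 0 x * Mo w' θ' 2 x := by
  unfold Mo cw ct
  rw [Fintype.sum_prod_type, Finset.sum_mul_sum, Finset.sum_mul_sum, Finset.sum_mul_sum,
    Finset.mul_sum, ← Finset.sum_add_distrib, ← Finset.sum_add_distrib]
  refine Finset.sum_congr rfl fun a _ => ?_
  rw [Finset.mul_sum, ← Finset.sum_add_distrib, ← Finset.sum_add_distrib]
  refine Finset.sum_congr rfl fun b _ => ?_
  rw [exp_split]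
  push_cast
  ring

lemma cw_nonneg (h : ∀ a, 0 ≤ w a) (h' : ∀ a, 0 ≤ w' a) : ∀ p, 0 ≤ cw w w' p :=
  fun p => mul_nonneg (h _) (h' _)

lemma cw_sum (h : ∑ a, w a = 1) (h' : ∑ a, w' a = 1) : ∑ p, cw w w' p = 1 := by
  unfold cw
  rw [Fintype.sum_prod_type]
  simp only [← Finset.mul_sum, h', mul_one, h]

end conv

/-- three-point weight -/
def tw (p : ℚ) : Fin 3 → ℚ := ![p, 1 - 2 * p, p]

/-- three-point frequencies -/
def tt (N : ℤ) : Fin 3 → ℤ := ![-N, 0, N]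

lemma Mo_three (p : ℚ) (N : ℤ) (x : ℝ) :
    Mo (tw p) (tt N) 0 x = ((1 - 2 * p + 2 * p * Real.cos (N * x) : ℝ) : ℂ) := by
  unfold Mo tw tt
  rw [Fin.sum_univ_three]
  simp only [Matrix.cons_val_zero, Matrix.cons_val_one, Matrix.cons_val]
  have h := Complex.two_cos ((N * x : ℝ) : ℂ)
  push_cast at h ⊢
  have e1 : Complex.exp (Complex.I * x * -(N : ℂ)) = Complex.exp (-((N : ℂ) * x * Complex.I)) := by
    congr 1; ring
  have e2 : Complex.exp (Complex.I * x * (N : ℂ)) = Complex.exp (((N : ℂ) * x * Complex.I)) := by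
    congr 1; ring
  rw [e1, e2]
  have e3 : Complex.exp (-((N : ℂ) * x * Complex.I)) = Complex.exp (-((N : ℂ) * x) * Complex.I) := by
    congr 1; ring
  simp only [mul_zero, Complex.exp_zero, pow_zero, mul_one]
  rw [e3]
  linear_combination (-(p : ℂ)) * h

lemma tw_nonneg {p : ℚ} (h0 : 0 ≤ p) (h1 : 2 * p ≤ 1) : ∀ a, 0 ≤ tw p a := by
  intro a
  unfold tw
  fin_cases a
  · simpa using h0
  · simp; linarith
  · simpa using h0

lemma tw_sum (p : ℚ) : ∑ a, tw p a = 1 := by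
  unfold tw
  rw [Fin.sum_univ_three]
  simp only [Matrix.cons_val_zero, Matrix.cons_val_one, Matrix.cons_val]
  ring

/-- the angle -/
noncomputable def tau : ℝ := Real.arccos (3 / 5)

lemma cos_tau : Real.cos tau = 3 / 5 := Real.cos_arccos (by norm_num) (by norm_num)

lemma sin_tau : Real.sin tau = 4 / 5 := by
  unfold tau
  rw [Real.sin_arccos]
  have : (1 : ℝ) - (3 / 5) ^ 2 = (4 / 5) ^ 2 := by norm_num
  rw [this, Real.sqrt_sq (by norm_num)]

lemma cos_mul (m : ℕ) : ∃ x y : ℤ, Real.cos (m * tau) = x / 5 ^ m ∧ Real.sin (m * tau) = y / 5 ^ m ∧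
    (1 ≤ m → x % 5 = 3 ∧ y % 5 = 4) := by
  induction m with
  | zero => exact ⟨1, 0, by simp, by simp, by simp⟩
  | succ m ih =>
    obtain ⟨x, y, hx, hy, hm⟩ := ih
    refine ⟨3 * x - 4 * y, 4 * x + 3 * y, ?_, ?_, ?_⟩
    · have : ((m + 1 : ℕ) : ℝ) * tau = m * tau + tau := by push_cast; ring
      rw [this, Real.cos_add, hx, hy, cos_tau, sin_tau, pow_succ]
      push_cast
      field_simp
    · have : ((m + 1 : ℕ) : ℝ) * tau = m * tau + tau := by push_cast; ring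
      rw [this, Real.sin_add, hx, hy, cos_tau, sin_tau, pow_succ]
      push_cast
      field_simp
      ring
    · intro _
      rcases Nat.eq_zero_or_pos m with h0 | h0
      · subst h0
        have h1 : (x : ℝ) = 1 := by simpa using hx.symm
        have h2 : (y : ℝ) = 0 := by simpa using hy.symm
        have h1' : x = 1 := by exact_mod_cast h1
        have h2' : y = 0 := by exact_mod_cast h2
        subst h1' h2'
        norm_num
      · have := hm h0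
        omega

lemma cos_ne_one (m : ℕ) (hm : 1 ≤ m) : Real.cos (m * tau) ≠ 1 := by
  obtain ⟨x, y, hx, -, h⟩ := cos_mul m
  intro hc
  rw [hx, div_eq_one_iff_eq (by positivity)] at hc
  have h1 : x = 5 ^ m := by exact_mod_cast hc
  have h2 := (h hm).1
  obtain ⟨r, rfl⟩ : ∃ r, m = r + 1 := ⟨m - 1, by omega⟩
  rw [h1, pow_succ] at h2
  omega

lemma cos_rat (m : ℤ) : ∃ a b : ℚ, Real.cos (m * tau) = a ∧ Real.sin (m * tau) = b := by
  rcases Int.eq_nat_or_neg m with ⟨n, rfl | rfl⟩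
  · obtain ⟨x, y, hx, hy, -⟩ := cos_mul n
    refine ⟨x / 5 ^ n, y / 5 ^ n, ?_, ?_⟩ <;> push_cast <;> assumption
  · obtain ⟨x, y, hx, hy, -⟩ := cos_mul n
    refine ⟨x / 5 ^ n, -(y / 5 ^ n), ?_, ?_⟩
    · push_cast
      rw [neg_mul, Real.cos_neg, hx]
    · push_cast
      rw [neg_mul, Real.sin_neg, hy]

lemma exists_nonpos (φ : ℝ) (h : Real.cos φ < 1) : ∃ N : ℕ, 1 ≤ N ∧ Real.cos (N * φ) ≤ 0 := by
  by_contra hcon
  push Not at hcon
  have key : ∀ n : ℕ, 2 ^ n * (1 - Real.cos φ) ≤ 1 - Real.cos (((2 ^ n : ℕ) : ℝ) * φ) := by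
    intro n
    induction n with
    | zero => simp
    | succ n ih =>
      have e : (((2 ^ (n + 1) : ℕ) : ℝ)) * φ = 2 * (((2 ^ n : ℕ) : ℝ) * φ) := by
        push_cast; ring
      rw [e, Real.cos_two_mul]
      have h1 := hcon (2 ^ n) Nat.one_le_two_pow
      have h2 := Real.cos_le_one (((2 ^ n : ℕ) : ℝ) * φ)
      rw [pow_succ]
      nlinarith
  obtain ⟨n, hn⟩ := pow_unbounded_of_one_lt (1 / (1 - Real.cos φ)) (by norm_num : (1 : ℝ) < 2)
  have h1 := key n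
  have h2 := hcon (2 ^ n) Nat.one_le_two_pow
  have h3 : 0 < 1 - Real.cos φ := by linarith
  rw [div_lt_iff₀ h3] at hn
  linarith

lemma exists_three (l : ℕ) (hl : 1 ≤ l) : ∃ (p : ℚ) (N : ℤ), 0 ≤ p ∧ 2 * p ≤ 1 ∧
    Mo (tw p) (tt N) 0 (l * tau) = 0 := by
  have h1 : Real.cos (l * tau) < 1 := lt_of_le_of_ne (Real.cos_le_one _) (cos_ne_one l hl)
  obtain ⟨N, hN, hc⟩ := exists_nonpos _ h1
  obtain ⟨a, b, ha, -⟩ := cos_rat (((N * l : ℕ)) : ℤ)
  have e : (((N * l : ℕ) : ℤ) : ℝ) * tau = N * (l * tau) := by push_cast; ring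
  rw [e] at ha
  have ha0 : a ≤ 0 := by
    rw [ha] at hc
    exact_mod_cast hc
  have hpos : 0 < 2 * (1 - a) := by linarith
  refine ⟨1 / (2 * (1 - a)), N, by positivity, ?_, ?_⟩
  · rw [mul_one_div, div_le_one hpos]
    linarith
  · rw [Mo_three]
    have : ((N : ℤ) : ℝ) * (l * tau) = N * (l * tau) := by push_cast; ring
    rw [this, ha]
    have : (1 - 2 * ((1 / (2 * (1 - a)) : ℚ) : ℝ) + 2 * ((1 / (2 * (1 - a)) : ℚ) : ℝ) * a) = 0 := by
      push_cast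
      have h5 : (1 - (a : ℝ)) ≠ 0 := by
        have : (a : ℝ) ≤ 0 := by exact_mod_cast ha0
        linarith
      field_simp
      ring
    rw [this]
    simp

lemma Mo_zero (Ω : Type) [Fintype Ω] (w : Ω → ℚ) (θ : Ω → ℤ) (j : ℕ) :
    Mo w θ j 0 = ((∑ ω, w ω * (θ ω : ℚ) ^ j : ℚ) : ℂ) := by
  unfold Mo
  push_cast
  refine Finset.sum_congr rfl fun a _ => ?_
  simp

/-- there is a weight with the required vanishing moments -/
lemma exists_weight0 (K : ℕ) : ∃ (Ω : Type) (_ : Fintype Ω) (w : Ω → ℚ) (θ : Ω → ℤ),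
    (∀ ω, 0 ≤ w ω) ∧ ∑ ω, w ω = 1 ∧
    ∀ l : ℕ, 1 ≤ l → l ≤ K → ∀ j < 3, Mo w θ j (l * tau) = 0 := by
  induction K with
  | zero =>
    refine ⟨Unit, inferInstance, fun _ => 1, fun _ => 0, by simp, by simp, ?_⟩
    intro l h1 h2
    omega
  | succ K ih =>
    obtain ⟨Ω, _, w, θ, h0, h1, h2⟩ := ih
    obtain ⟨p, N, hp0, hp1, hz⟩ := exists_three (K + 1) (by omega)
    refine ⟨((Ω × Fin 3) × Fin 3) × Fin 3, inferInstance,
      cw (cw (cw w (tw p)) (tw p)) (tw p), ct (ct (ct θ (tt N)) (tt N)) (tt N), ?_, ?_, ?_⟩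
    · exact cw_nonneg _ _ (cw_nonneg _ _ (cw_nonneg _ _ h0 (tw_nonneg hp0 hp1))
        (tw_nonneg hp0 hp1)) (tw_nonneg hp0 hp1)
    · exact cw_sum _ _ (cw_sum _ _ (cw_sum _ _ h1 (tw_sum p)) (tw_sum p)) (tw_sum p)
    · intro l hl1 hl2 j hj
      rcases Nat.lt_or_ge K l with h | h
      · have : l = K + 1 := by omega
        subst this
        interval_cases j
        · simp only [Mo_conv0, hz, mul_zero]
        · simp only [Mo_conv0, Mo_conv1, hz, mul_zero, zero_mul, add_zero]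
        · simp only [Mo_conv0, Mo_conv1, Mo_conv2, hz, mul_zero, zero_mul, add_zero]
      · have a0 := h2 l hl1 h 0 (by norm_num)
        have a1 := h2 l hl1 h 1 (by norm_num)
        have a2 := h2 l hl1 h 2 (by norm_num)
        interval_cases j
        · simp only [Mo_conv0, a0, zero_mul]
        · simp only [Mo_conv0, Mo_conv1, a0, a1, zero_mul, add_zero]
        · simp only [Mo_conv0, Mo_conv1, Mo_conv2, a0, a1, a2, zero_mul, add_zero, mul_zero]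

lemma exists_weight (K : ℕ) : ∃ (Ω : Type) (_ : Fintype Ω) (w : Ω → ℚ) (θ : Ω → ℤ) (b : ℕ),
    1 ≤ b ∧ (∀ ω, 0 ≤ w ω) ∧ ∑ ω, w ω = 1 ∧ ∑ ω, w ω * (θ ω : ℚ) ^ 2 = (b : ℚ) ^ 2 ∧
    ∀ l : ℕ, 1 ≤ l → l ≤ K → ∀ j < 3, Mo w θ j (l * tau) = 0 := by
  obtain ⟨Ω, _, w, θ, h0, h1, h2⟩ := exists_weight0 K
  set g : ℚ := ∑ ω, w ω * (θ ω : ℚ) ^ 2 with hg
  have hg0 : 0 ≤ g := Finset.sum_nonneg fun ω _ => mul_nonneg (h0 ω) (sq_nonneg _)
  obtain ⟨b0, hb0⟩ := exists_nat_ge g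
  set b := b0 + 1 with hb
  have hb1 : (1 : ℚ) ≤ b := by rw [hb]; push_cast; linarith [(Nat.cast_nonneg b0 : (0 : ℚ) ≤ b0)]
  have hgb : g ≤ (b : ℚ) ^ 2 := by
    have : (b0 : ℚ) ≤ b := by rw [hb]; push_cast; linarith
    nlinarith
  have hbpos : (0 : ℚ) < (b : ℚ) ^ 2 := by positivity
  set p : ℚ := ((b : ℚ) ^ 2 - g) / (2 * (b : ℚ) ^ 2) with hp
  have hp0 : 0 ≤ p := by
    rw [hp]; apply div_nonneg <;> linarith
  have hp1 : 2 * p ≤ 1 := by
    rw [hp, mul_div_assoc', div_le_one (by positivity)]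
    linarith
  refine ⟨Ω × Fin 3, inferInstance, cw w (tw p), ct θ (tt b), b, by omega,
    cw_nonneg _ _ h0 (tw_nonneg hp0 hp1), cw_sum _ _ h1 (tw_sum p), ?_, ?_⟩
  · have e := Mo_conv2 w θ (tw p) (tt b) 0
    rw [Mo_zero, Mo_zero, Mo_zero, Mo_zero, Mo_zero, Mo_zero, Mo_zero] at e
    have e' : (∑ ω, cw w (tw p) ω * ((ct θ (tt b) ω : ℤ) : ℚ) ^ 2) =
        (∑ ω, w ω * (θ ω : ℚ) ^ 2) * (∑ ω, tw p ω * (tt b ω : ℚ) ^ 0) +
        2 * ((∑ ω, w ω * (θ ω : ℚ) ^ 1) * (∑ ω, tw p ω * (tt b ω : ℚ) ^ 1)) +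
        (∑ ω, w ω * (θ ω : ℚ) ^ 0) * (∑ ω, tw p ω * (tt b ω : ℚ) ^ 2) := by exact_mod_cast e
    rw [e', ← hg]
    have f0 : (∑ ω, tw p ω * (tt b ω : ℚ) ^ 0) = 1 := by
      simp only [pow_zero, mul_one]; exact tw_sum p
    have f1 : (∑ ω, tw p ω * (tt b ω : ℚ) ^ 1) = 0 := by
      rw [Fin.sum_univ_three]; simp [tw, tt]
    have f2 : (∑ ω, tw p ω * (tt b ω : ℚ) ^ 2) = 2 * p * (b : ℚ) ^ 2 := by
      rw [Fin.sum_univ_three]; simp [tw, tt]; ring
    have f3 : (∑ ω, w ω * (θ ω : ℚ) ^ 0) = 1 := by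
      simp only [pow_zero, mul_one]; exact h1
    rw [f0, f1, f2, f3, hp]
    have : (b : ℚ) ≠ 0 := by intro h; rw [h] at hb1; norm_num at hb1
    field_simp
    ring
  · intro l hl1 hl2 j hj
    have a0 := h2 l hl1 hl2 0 (by norm_num)
    have a1 := h2 l hl1 hl2 1 (by norm_num)
    have a2 := h2 l hl1 hl2 2 (by norm_num)
    interval_cases j
    · simp only [Mo_conv0, a0, zero_mul]
    · simp only [Mo_conv1, a0, a1, zero_mul, add_zero]
    · simp only [Mo_conv2, a0, a1, a2, zero_mul, add_zero, mul_zero]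

end KS6_22_MS
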